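import Pool.Agent.Lib_helper78.FS.Th
import Pool.Agent.Lib_helper78.RO.F.ACP
import Pool.Agent.Lib_helper78.RO.F.GAM
import Pool.Agent.Lib_helper78.RO.F.QUI
import Pool.Agent.Lib_helper78.RO.F.FIN

/-!
# The theory that bets against `S`
-/

set_option autoImplicit false

namespace Pool.Agent.FS

open Pool.Agent.CK Pool.Agent.RF Pool.Agent.CKP Pool.Agent.RO

variable {O : Lang}

/-- the prefix of a theory and of a string -/
def pfx (own : List Bool) (kk : List Unit) (q : List Bool) : List Bool := own ++ (tagU kk ++ q)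

/-- the prefix of the pair: the theory `T` and the number `i` -/
def pfxT (T : Th) (i : ℕ) : List Bool := cEnc T.1 ++ (tag T.2 ++ tag i)

theorem tagU_replicate (k : ℕ) : tagU (List.replicate k ()) = tag k := by
  unfold tagU tag
  rw [List.map_replicate]

theorem pfx_eq (T : Th) (i : ℕ) : pfx (cEnc T.1) (List.replicate T.2 ()) (tag i) = pfxT T i := by
  unfold pfx pfxT
  rw [tagU_replicate]

theorem pfxT_inj {T T' : Th} {i i' : ℕ} {y y' : List Bool}
    (h : pfxT T i ++ y = pfxT T' i' ++ y') : T = T' ∧ i = i' ∧ y = y' := by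
  unfold pfxT at h
  rw [List.append_assoc, List.append_assoc, List.append_assoc, List.append_assoc] at h
  obtain ⟨h1, h2⟩ := enc_cmd h
  obtain ⟨h3, h4⟩ := enc_tag_app.1 h2
  obtain ⟨h5, h6⟩ := enc_tag_app.1 h4
  exact ⟨Prod.ext h1 h3, h5, h6⟩

/-- the decision procedure of the theory -/
def decF (O : Lang) (b : Th) (q : List Bool) (x : (List Bool × List Unit) × List Bool) : Bool :=
  accU O (cmdD b.1) x.2 [] (List.replicate ((x.2.length + 2) ^ b.2) ()) ||
    (rangeU (ulen x.2.length.bits)).any (fun l => decide (8 ≤ l.length) &&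
      eqT x.2 (encT (t1T (cut x.2 l) (pfx x.1.1 x.1.2 q))))

theorem PTime_decF (b : Th) (q : List Bool) : PTime O (decF O b q) := by
  have f0 : PTime O (fun x : (List Bool × List Unit) × List Bool => x) := PTime.id
  have hN : PTime O (fun x : (List Bool × List Unit) × List Bool =>
      List.replicate ((x.2.length + 2) ^ b.2) ()) :=
    UPoly.comp (g := fun n => (n + 2) ^ b.2) (UPoly.tb b.2) f0.snd
  have h1 : PTime O (fun x : (List Bool × List Unit) × List Bool =>
      accU O (cmdD b.1) x.2 [] (List.replicate ((x.2.length + 2) ^ b.2) ())) :=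
    PTime.accU (PTime.const _) f0.snd (PTime.const []) hN
  have h2 : PTime O (fun x : (List Bool × List Unit) × List Bool =>
      (rangeU (ulen x.2.length.bits)).any (fun l => decide (8 ≤ l.length) &&
        eqT x.2 (encT (t1T (cut x.2 l) (pfx x.1.1 x.1.2 q))))) := by
    refine PTime.any (f := fun (x : (List Bool × List Unit) × List Bool) (l : List Unit) =>
      decide (8 ≤ l.length) && eqT x.2 (encT (t1T (cut x.2 l) (pfx x.1.1 x.1.2 q))))
      (PTime.rangeU (PTime.ulen (PTime.bits f0.snd.length))) ?_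
    have g1 : PTime O (fun p : ((List Bool × List Unit) × List Bool) × List Unit => p.1.2) :=
      PTime.id.fst.snd
    have g2 : PTime O (fun p : ((List Bool × List Unit) × List Bool) × List Unit => p.2) :=
      PTime.id.snd
    have g3 : PTime O (fun p : ((List Bool × List Unit) × List Bool) × List Unit =>
        pfx p.1.1.1 p.1.1.2 q) := by
      unfold pfx tagU
      exact PTime.append PTime.id.fst.fst.fst (PTime.append (PTime.append
        (PTime.map (f := fun _ _ => true) PTime.id.fst.fst.snd (PTime.const _)) (PTime.const _))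
        (PTime.const _))
    exact ((PTime.const 8).nat_le g2.length).and
      (PTime_eqT g1 (PTime_encT (PTime_t1T g1 g2 g3)))
  exact (h1.or h2).of_eq fun x => rfl

/-- the theory -/
theorem exists_T {B : Fm → Prop} (hB : BaseD O B) (i : ℕ) : ∃ T : Th,
    (∀ x, Halts O T.1 x [] ((x.length + 2) ^ T.2)) ∧
    ∀ σ, Ax O T σ ↔ B σ ∨ ∃ l, 8 ≤ l ∧ σ = t1F l (pfxT T i) := by
  obtain ⟨b, hbh, hb⟩ := hB.dec
  obtain ⟨T, hT⟩ := quine (PTime_decF (O := O) b (tag i))
  refine ⟨T, fun x => (hT x).1, fun σ => ?_⟩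
  unfold Ax
  rw [(hT σ.enc).2]
  unfold decF
  rw [Bool.or_eq_true, accU_iff, List.length_replicate]
  refine or_congr (hb σ) ?_
  have e1 : pfx (cEnc T.1) (List.replicate T.2 ()) (tag i) = pfxT T i := pfx_eq T i
  simp only [e1]
  rw [ulen_eq, gam_any_range, Nat.size_eq_bits_len]
  constructor
  · rintro ⟨l, hl, h⟩
    rw [Nat.lt_size] at hl
    rw [Bool.and_eq_true, decide_eq_true_eq, List.length_replicate,
      cut_eq (by rw [List.length_replicate]; exact hl), eqT_bits, t1T_eq, encT_fm] at h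
    refine ⟨l, h.1, ?_⟩
    exact (enc_inj (a := []) (b := []) (by rw [List.append_nil, List.append_nil, h.2])).1
  · rintro ⟨l, h8, rfl⟩
    have hl : 2 ^ l ≤ (t1F l (pfxT T i)).enc.length := t1F_len_ge l _
    refine ⟨l, Nat.lt_size.mpr hl, ?_⟩
    rw [Bool.and_eq_true, decide_eq_true_eq, List.length_replicate,
      cut_eq (by rw [List.length_replicate]; exact hl), eqT_bits, t1T_eq, encT_fm]
    exact ⟨h8, rfl⟩

/-- a theory that has a false sentence as an axiom -/
theorem fin_false1 {B : Fm → Prop} (hB : BaseD O B) {S T : Th} (hS : InT O B S)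
    (hT : ∀ σ, B σ → Ax O T σ) {s i : ℕ} {y : List Bool}
    (hax : Ax O T (t1F (st s) (pfxT T i))) (hp : (pfxT T i).length ≤ st s)
    (hy : y.length + 1 = 2 ^ (st s + 1)) (hb : O (true :: (pfxT T i ++ y)) = true)
    (hacc : AccS O S T s) : False := by
  obtain ⟨l', hl', hlen⟩ := t1F_refute (O := O) (A := Ax O T) hax
    (fun a b hab => hT _ (hB.leD a b hab)) (fun x hx => hT _ (hB.orcD x hx)) hp hy hb
  have hn : (pEnc (l' ++ [falsum])).length + 4000 ≤ 2 ^ (3 * st s + 13) - 2 := by
    have h1 : 2 ^ (3 * st s + 13) = 8192 * 2 ^ (3 * st s) := by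
      rw [show 3 * st s + 13 = 13 + 3 * st s by ring, pow_add]; norm_num
    have h2 : 2 ^ st s ≤ 2 ^ (3 * st s) := Nat.pow_le_pow_right (by norm_num) (by omega)
    have h3 := Nat.one_le_two_pow (n := st s)
    have h4 := lt_st s
    have h5 : 2 ^ 8 ≤ 2 ^ st s := Nat.pow_le_pow_right (by norm_num) (by omega)
    rw [h1]
    omega
  obtain ⟨hc, hr⟩ := proof_false hl' hn
  rcases acc_proof hS.halts hacc with h | h
  · have h1 : ¬ (RFN T (2 ^ (3 * st s + 13) - 2)).True O := fun hh =>
      hr ((holds_RFN O (fun _ => 0) T _).mp (hh _))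
    exact hS.cons (prv_bot h (prv_mono hS.ext (hB.refRFN T _ h1)))
  · have h1 : ¬ (Con T (2 ^ (3 * st s + 13) - 2)).True O := fun hh =>
      hc ((holds_Con O (fun _ => 0) T _).mp (hh _))
    exact hS.cons (prv_bot h (prv_mono hS.ext (hB.refCon T _ h1)))

end Pool.Agent.FS
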