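import Pool.Agent.Lib_helper78.FS.Test
import Pool.Agent.Lib_helper78.ADV.Rfn

/-!
# Q1 is false above every oracle with a sparse tally set
-/

set_option autoImplicit false

namespace Pool.Agent.FS

open Pool.Agent.CK Pool.Agent.RF Pool.Agent.CKP Pool.Agent.RO Pool.Agent.ADV Filter

theorem test_ok {g : ℕ → ℕ} {R : Lang} (hg : ∀ u, 2 * u + 1 < 2 ^ g u) (σ : Fm)
    (h : test (OT g R) (false :: σ.enc) = true) : σ.Closed ∧ σ.True (OT g R) := by
  obtain ⟨e, he, h1, h2, m, n, h3, h4⟩ := (test_iff hg _).1 h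
  have h7 : σ = pad m (e.at n) := by
    refine (enc_inj (a := []) (b := []) ?_).1
    rw [List.append_nil, List.append_nil]
    exact (List.cons.inj h3).2
  subst h7
  refine ⟨(pad_closed m _).2 ?_, (pad_true _ m _).2 (h2 n h4)⟩
  intro i hi
  obtain ⟨h8, h9⟩ := fm_free_sb (num_has i n) _ hi
  exact h9 (he.1 i h8)

/-- the theory -/
theorem exists_S {g : ℕ → ℕ} {R : Lang} (hg : ∀ u, 2 * u + 1 < 2 ^ g u) {B : Fm → Prop}
    (hB : Base (OT g R) B) : ∃ S, InT (OT g R) B S ∧
      ∀ σ : Fm, test (OT g R) (false :: σ.enc) = true → Ax (OT g R) S σ := by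
  obtain ⟨b, hbh, hb⟩ := hB.dec
  have hP : PTime (OT g R) (fun x : List Bool =>
      accU (OT g R) (cmdD b.1) x [] (List.replicate ((x.length + 2) ^ b.2) ()) ||
        test (OT g R) (false :: x)) := by
    have f0 : PTime (OT g R) (fun x : List Bool => x) := PTime.id
    have hN : PTime (OT g R) (fun x : List Bool => List.replicate ((x.length + 2) ^ b.2) ()) :=
      UPoly.comp (g := fun n => (n + 2) ^ b.2) (UPoly.tb b.2) f0
    exact (PTime.accU (PTime.const _) f0 (PTime.const []) hN).or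
      (PTime_test (PTime.cons (PTime.const false) f0))
  obtain ⟨c, k, hS⟩ := inP_of hP
  have hAx : ∀ σ, Ax (OT g R) (c, k) σ ↔ B σ ∨ test (OT g R) (false :: σ.enc) = true := by
    intro σ
    unfold Ax
    rw [(hS σ.enc).2, Bool.or_eq_true, accU_iff, List.length_replicate]
    exact or_congr (hb σ) Iff.rfl
  refine ⟨(c, k), ⟨fun x => (hS x).1, fun σ hσ => (hAx σ).mpr (Or.inl hσ), fun σ hσ => ?_, ?_⟩,
    fun σ h => (hAx σ).2 (Or.inr h)⟩
  · rcases (hAx σ).mp hσ with h | h
    · exact hB.closed σ h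
    · exact (test_ok hg σ h).1
  · intro hp
    have h1 : falsum.True (OT g R) := by
      refine sound (fun σ hσ => ?_) hp
      rcases (hAx σ).mp hσ with h | h
      · exact hB.isTrue σ h
      · exact (test_ok hg σ h).2
    exact h1 (fun _ => 0) rfl

theorem easy_test {g : ℕ → ℕ} {R : Lang} (hg : ∀ u, 2 * u + 1 < 2 ^ g u) {S : Th}
    (hS : ∀ σ : Fm, test (OT g R) (false :: σ.enc) = true → Ax (OT g R) S σ) (e : Fam)
    (he : e.Good) (ht : ∀ n, (e.at n).True (OT g R)) : EasyProofs (OT g R) S e.at := by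
  refine easy_of e (g (cod e)) (fun n => hS _ ?_)
  have hx : padE e.2.1 (g (cod e)) n ≤
      (false :: (pad (padE e.2.1 (g (cod e)) n) (e.at n)).enc).length := by
    rw [List.length_cons, pad_len]; omega
  refine (test_iff hg _).2 ⟨e, he, ix_lev (le_trans ?_ hx), fun k _ => ht k,
    padE e.2.1 (g (cod e)) n, n, rfl, ix_dep ((padE_dep _ _ _).trans hx)⟩
  unfold padE
  exact Nat.le_add_left _ _

/-- **Q1 is false relative to `R ⊕ W` for some `W ⊆ {0^(2^j)}` with at most `α n` elements of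
length at most `n`.** -/
theorem few_false (R : Lang) {α : ℕ → ℕ} (hα : Tendsto α atTop atTop) :
    ∃ W : Lang, Few α W ∧ (∀ x, W x = true → ∃ j, x = List.replicate (2 ^ j) false) ∧
      (∃ B, BaseD (join R W) B ∧ ∀ σ, S12 σ → B σ) ∧
      ∀ B, Base (join R W) B → ∃ S, InT (join R W) B S ∧
        (∀ T, InT (join R W) B T → EasyProofs (join R W) S (RFN T)) ∧
        ∀ (i : ℕ) (φ : Fm), LocalFam i φ → (∀ j, φ.free j → j = i) →
          (∀ n, (φ.sb i (num n)).True (join R W)) →
          EasyProofs (join R W) S (fun n => φ.sb i (num n)) := by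
  have hα2 : ∀ u : ℕ, ∃ N, ∀ n, N ≤ n → 2 * u + 2 ≤ α n := fun u =>
    (tendsto_atTop.1 hα (2 * u + 2)).exists_forall_of_atTop
  choose N hN using hα2
  let g : ℕ → ℕ := fun u => 2 * u + 2 + N u
  have hg : ∀ u, 2 * u + 1 < 2 ^ g u := fun u => by
    have h1 : g u < 2 ^ g u := Nat.lt_two_pow_self
    have h2 : 2 * u + 2 ≤ g u := Nat.le_add_right _ _
    omega
  refine ⟨WT g R, few_WT R (fun u n h => hN u n ?_), fun x hx => WT_tally hx, base_all _,
    ?_⟩
  · have h1 : g u < 2 ^ g u := Nat.lt_two_pow_self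
    have h2 : 2 ^ g u < 2 ^ 2 ^ g u := Nat.lt_two_pow_self
    have h3 : N u ≤ g u := Nat.le_add_left _ _
    omega
  rw [← OT_eq]
  intro B hB
  obtain ⟨S, hS, hax⟩ := exists_S hg hB
  have key : ∀ e : Fam, e.Good → (∀ n, (e.at n).True (OT g R)) →
      EasyProofs (OT g R) S e.at := fun e he ht => easy_test hg hax e he ht
  refine ⟨S, hS, fun T hT => ?_, fun i φ hl hf ht => ?_⟩
  · have h1 := key _ (rfn_good T) (fun n => by
      unfold Fam.at
      rw [rfnF_sb]
      exact rfn_true hB hT n)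
    have h2 : Fam.at (5, 2 * T.2 + 3, rfnF T) = RFN T := by
      funext n
      exact rfnF_sb T n
    rw [h2] at h1
    exact h1
  · obtain ⟨c, hc⟩ := good_of_local hl hf
    exact key (i, c, φ) hc ht

end Pool.Agent.FS
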