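import Pool.Agent.Lib_helper78.FS.Build
import Pool.Agent.Lib_helper78.RO.F.BAL
import Pool.Agent.Lib_helper87.RO.LargeK

/-!
# Q1 is true above every oracle with few additional strings
-/

set_option autoImplicit false

namespace Pool.Agent.FS

open Pool.Agent.CK Pool.Agent.RF Pool.Agent.CKP Pool.Agent.RO Filter

/-- the set has at most `α n` elements of length at most `n` -/
def Few (α : ℕ → ℕ) (W : Lang) : Prop :=
  ∀ n, {x : List Bool | x.length ≤ n ∧ W x = true}.ncard ≤ α n

theorem few_W (P : Par) (α : ℕ → ℕ)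
    (hg : ∀ m n, 2 ^ (st (P.g m) + 1) ≤ n + 1 → m + 1 ≤ α n) : Few α P.W := by
  classical
  intro n
  choose! s hs using fun x (hx : P.W x = true) => exists_add P hx
  have h1 : ∀ x ∈ {x : List Bool | x.length ≤ n ∧ P.W x = true},
      Par.ks (s x) ∈ ((Finset.range (α n) : Finset ℕ) : Set ℕ) := by
    rintro x ⟨hx, hW⟩
    obtain ⟨h2, -, -, y, hy, hc, -⟩ := add_spec P (hs x hW)
    rw [Finset.mem_coe, Finset.mem_range]
    refine Nat.lt_of_succ_le (hg _ n ?_)
    have h3 : y.length ≤ x.length := by rw [hy, List.length_append]; omega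
    have h4 : 2 ^ (st (P.g (Par.ks (s x))) + 1) ≤ 2 ^ (st (s x) + 1) :=
      Nat.pow_le_pow_right (by norm_num) (by
        have := st_mono.monotone h2
        omega)
    omega
  have h2 : Set.InjOn (fun x => Par.ks (s x)) {x : List Bool | x.length ≤ n ∧ P.W x = true} := by
    rintro x ⟨-, hx⟩ x' ⟨-, hx'⟩ h
    have h3 := add_inj P (hs x hx) (hs x' hx') h
    have h4 := hs x hx
    rw [h3] at h4
    exact add_unique P h4 (hs x' hx')
  have h3 := Set.ncard_le_ncard_of_injOn _ h1 h2 (Finset.finite_toSet _)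
  rwa [Set.ncard_coe_finset, Finset.card_range] at h3

/-- **Q1 is true relative to `R ⊕ W` for some `W` with at most `α n` elements of length at most
`n`.** -/
theorem few_true (R : Lang) {α : ℕ → ℕ} (hα : Tendsto α atTop atTop) :
    ∃ W : Lang, Few α W ∧ (∃ B, BaseD (join R W) B ∧ ∀ σ, S12 σ → B σ) ∧
      ∀ B, BaseD (join R W) B → ∀ S, InT (join R W) B S → ∃ T, InT (join R W) B T ∧
        ¬ PolyBounded (join R W) S (RFN T) ∧ ¬ PolyBounded (join R W) S (Con T) ∧
        ∀ m, ∃ n, m ≤ n ∧ ∀ l : List Fm,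
          (IsProof (Ax (join R W) S) (l ++ [RFN T n]) →
            n < (Nat.size (pEnc (l ++ [RFN T n])).length) ^ 7) ∧
          (IsProof (Ax (join R W) S) (l ++ [Con T n]) →
            n < (Nat.size (pEnc (l ++ [Con T n])).length) ^ 7) := by
  have hc : Countable Cmd := Function.Injective.countable cEnc_inj
  obtain ⟨num, hnum⟩ := exists_injective_nat Th
  have : Nonempty (Th × Th) := ⟨((Cmd.skip, 0), (Cmd.skip, 0))⟩
  obtain ⟨cl, hcl⟩ := exists_surjective_nat (Th × Th)
  choose J hJ using large_all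
  have hα2 : ∀ m : ℕ, ∃ N, ∀ n, N ≤ n → m + 1 ≤ α n := fun m =>
    (tendsto_atTop.1 hα (m + 1)).exists_forall_of_atTop
  choose N hN using hα2
  let P : Par := ⟨R, num, cl, fun m => J (cl m).1.2 +
    (pfxT (cl m).2 (num (cl m).1)).length + N m⟩
  have hgJ : ∀ m, J (cl m).1.2 ≤ P.g m := fun m => by
    show _ ≤ J (cl m).1.2 + (pfxT (cl m).2 (num (cl m).1)).length + N m
    omega
  have hgp : ∀ m, (P.pf m).length ≤ P.g m := fun m => by
    show (pfxT (cl m).2 (num (cl m).1)).length ≤
      J (cl m).1.2 + (pfxT (cl m).2 (num (cl m).1)).length + N m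
    omega
  have hgN : ∀ m, N m ≤ P.g m := fun m => by
    show _ ≤ J (cl m).1.2 + (pfxT (cl m).2 (num (cl m).1)).length + N m
    omega
  refine ⟨P.W, few_W P α (fun m n h => hN m n ?_), base_all _, fun B hB S hS => ?_⟩
  · have h1 := hgN m
    have h2 := lt_st (P.g m)
    have h3 : st (P.g m) + 1 < 2 ^ (st (P.g m) + 1) := Nat.lt_two_pow_self
    omega
  set O := join R P.W with hO
  obtain ⟨T, hTh, hax⟩ := exists_T hB (num S)
  obtain ⟨m, hm⟩ := hcl (S, T)
  have hpf : P.pf m = pfxT T (num S) := by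
    show pfxT (cl m).2 (num (cl m).1) = _
    rw [hm]
  have hext : ∀ σ, B σ → Ax O T σ := fun σ hσ => (hax σ).mpr (Or.inl hσ)
  -- the pair is never treated successfully
  have hno : ∀ y, P.W (P.pf m ++ y) = false := by
    intro y
    by_contra hcon
    have hW : P.W (P.pf m ++ y) = true := by simpa using hcon
    obtain ⟨s, hs⟩ := exists_add P hW
    obtain ⟨h1, -, h2, y', hy', h3, h4⟩ := add_spec P hs
    have h5 : pfxT T (num S) ++ y = pfxT (cl (Par.ks s)).2 (num (cl (Par.ks s)).1) ++ y' := by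
      rw [← hpf]; exact hy'
    obtain ⟨h6, h7, h8⟩ := pfxT_inj h5
    have h9 := hnum h7
    subst h8
    have hcl' : cl (Par.ks s) = (S, T) := Prod.ext h9.symm h6.symm
    have hL : Large S.2 (J S.2) := hJ _
    have hJs : J S.2 ≤ s := by
      have h10 := hgJ (Par.ks s)
      have h11 : J (cl (Par.ks s)).1.2 = J S.2 := by rw [hcl']
      omega
    rw [← hy', ← h2] at h4
    have hacc : AccS (P.OF (P.F (s + 1))) S T s := by
      have h10 : AccS (P.OF (P.F (s + 1))) (cl (Par.ks s)).1 (cl (Par.ks s)).2 s := h4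
      rwa [hcl'] at h10
    rw [acc_W P rfl hL hJs] at hacc
    have h8' : 8 ≤ st s := by
      have := lt_st s
      omega
    refine fin_false1 (O := O) hB hS hext ((hax _).2 (Or.inr ⟨st s, h8', rfl⟩)) ?_ h3 ?_ hacc
    · have h10 := hgp (Par.ks s)
      have h11 : P.pf (Par.ks s) = pfxT T (num S) := by
        show pfxT (cl (Par.ks s)).2 (num (cl (Par.ks s)).1) = _
        rw [hcl']
      rw [h11] at h10
      have h12 := lt_st s
      omega
    · rw [← hpf]
      exact hW
  have htrue : ∀ σ, Ax O T σ → σ.True O := by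
    intro σ hσ
    rcases (hax σ).mp hσ with h | ⟨l, h8, rfl⟩
    · exact hB.isTrue σ h
    · refine t1F_true (fun y _ hy => ?_)
      have h1 : P.W (pfxT T (num S) ++ y) = true := hy
      rw [← hpf, hno] at h1
      exact Bool.false_ne_true h1
  have key : ∀ m', ∃ n, m' ≤ n ∧ ∀ l : List Fm,
      (IsProof (Ax O S) (l ++ [RFN T n]) →
        n < (Nat.size (pEnc (l ++ [RFN T n])).length) ^ 7) ∧
      (IsProof (Ax O S) (l ++ [Con T n]) →
        n < (Nat.size (pEnc (l ++ [Con T n])).length) ^ 7) := by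
    intro m'
    obtain ⟨s0, hs0⟩ := growth_st
    obtain ⟨s, hs, hks⟩ : ∃ s, P.g m + J S.2 + s0 + m' ≤ s ∧ Par.ks s = m := by
      refine ⟨Nat.pair m (P.g m + J S.2 + s0 + m'), Nat.right_le_pair _ _, ?_⟩
      unfold Par.ks
      rw [Nat.unpair_pair]
    have hL : Large (P.cl m).1.2 (J S.2) := by
      show Large (cl m).1.2 _
      rw [hm]; exact hJ _
    have hna : ¬ AccS O S T s := by
      have h1 := not_acc P (J := J S.2) hno hks (by omega) hL (by omega)
      have h2 : P.cl m = (S, T) := hm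
      rwa [h2] at h1
    refine ⟨2 ^ (3 * st s + 13) - 2, ?_, fun l => ⟨fun h => ?_, fun h => ?_⟩⟩
    · have h1 := lt_st s
      have h2 : 3 * st s + 13 < 2 ^ (3 * st s + 13) := Nat.lt_two_pow_self
      omega
    · by_contra hcon
      exact hna (proof_acc (Or.inl rfl) h (hs0 s (by omega) _ (Nat.not_lt.1 hcon)))
    · by_contra hcon
      exact hna (proof_acc (Or.inr rfl) h (hs0 s (by omega) _ (Nat.not_lt.1 hcon)))
  refine ⟨T, ⟨hTh, hext, ?_, ?_⟩, ?_, ?_, key⟩
  · intro σ hσ
    rcases (hax σ).mp hσ with h | ⟨l, -, rfl⟩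
    · exact hB.closed σ h
    · exact t1F_closed _ _
  · intro h
    have h1 := sound htrue h (fun _ => 0)
    exact h1 rfl
  · exact not_bounded fun m => by
      obtain ⟨n, hn, h⟩ := key m
      exact ⟨n, hn, fun l => (h l).1⟩
  · exact not_bounded fun m => by
      obtain ⟨n, hn, h⟩ := key m
      exact ⟨n, hn, fun l => (h l).2⟩

end Pool.Agent.FS
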