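import Pool.Agent.Lib_helper78.FS.Game
import Pool.Agent.Lib_helper78.RO.F.LOC

/-!
# The sparse set
-/

set_option autoImplicit false

namespace Pool.Agent.FS

open Pool.Agent.CK Pool.Agent.RF Pool.Agent.CKP Pool.Agent.RO

/-- the parameters of the construction -/
structure Par where
  /-- the given oracle -/
  R : Lang
  /-- the numbers of the theories -/
  num : Th → ℕ
  /-- the enumeration of the pairs -/
  cl : ℕ → Th × Th
  /-- the first stages -/
  g : ℕ → ℕ

variable (P : Par)

/-- the pair treated at stage `s` -/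
def Par.ks (s : ℕ) : ℕ := (Nat.unpair s).1

/-- the prefix of the pair with number `m` -/
def Par.pf (m : ℕ) : List Bool := pfxT (P.cl m).2 (P.num (P.cl m).1)

/-- the oracle with the finite set `F` -/
def Par.OF (F : Finset (List Bool)) : Lang := join P.R (fun x => decide (x ∈ F))

/-- the string can be added -/
def Par.Cand (s : ℕ) (F : Finset (List Bool)) (y : List Bool) : Prop :=
  y.length + 1 = 2 ^ (st s + 1) ∧
    AccS (P.OF (insert (P.pf (Par.ks s) ++ y) F)) (P.cl (Par.ks s)).1 (P.cl (Par.ks s)).2 s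

/-- the pair is treated at stage `s` -/
def Par.Go (s : ℕ) (F : Finset (List Bool)) : Prop :=
  P.g (Par.ks s) ≤ s ∧ (∀ y, P.pf (Par.ks s) ++ y ∉ F) ∧ ∃ y, P.Cand s F y

open Classical in
/-- one stage -/
noncomputable def Par.step (s : ℕ) (F : Finset (List Bool)) : Finset (List Bool) :=
  if h : P.Go s F then insert (P.pf (Par.ks s) ++ h.2.2.choose) F else F

/-- the finite sets -/
noncomputable def Par.F : ℕ → Finset (List Bool)
  | 0 => ∅
  | s + 1 => P.step s (Par.F s)

open Classical in
/-- the set -/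
noncomputable def Par.W : Lang := fun x => decide (∃ s, x ∈ P.F s)

theorem F_succ (s : ℕ) : P.F (s + 1) = P.step s (P.F s) := rfl

theorem F_sub (s : ℕ) : P.F s ⊆ P.F (s + 1) := by
  rw [F_succ]
  unfold Par.step
  split_ifs
  · exact Finset.subset_insert _ _
  · exact Finset.Subset.refl _

theorem F_mono {s t : ℕ} (h : s ≤ t) : P.F s ⊆ P.F t := by
  induction t, h using Nat.le_induction with
  | base => exact Finset.Subset.refl _
  | succ t _ ih => exact ih.trans (F_sub P t)

/-- the string is added at stage `s` -/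
def Par.Add (s : ℕ) (x : List Bool) : Prop := x ∈ P.F (s + 1) ∧ x ∉ P.F s

theorem add_spec {s : ℕ} {x : List Bool} (h : P.Add s x) :
    P.g (Par.ks s) ≤ s ∧ (∀ y, P.pf (Par.ks s) ++ y ∉ P.F s) ∧
      P.F (s + 1) = insert x (P.F s) ∧
      ∃ y, x = P.pf (Par.ks s) ++ y ∧ P.Cand s (P.F s) y := by
  classical
  obtain ⟨h1, h2⟩ := h
  rw [F_succ] at h1 ⊢
  unfold Par.step at h1 ⊢
  split_ifs at h1 ⊢ with hg
  · rcases Finset.mem_insert.1 h1 with h3 | h3
    · exact ⟨hg.1, hg.2.1, by rw [h3], _, h3, hg.2.2.choose_spec⟩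
    · exact absurd h3 h2
  · exact absurd h1 h2

theorem exists_add {x : List Bool} (h : P.W x = true) : ∃ s, P.Add s x := by
  classical
  have h1 : ∃ s, x ∈ P.F s := of_decide_eq_true h
  have h2 := Nat.find_spec h1
  rcases hk : Nat.find h1 with _ | k
  · rw [hk] at h2
    exact absurd h2 (by simp [Par.F])
  · rw [hk] at h2
    exact ⟨k, h2, Nat.find_min h1 (by omega)⟩

theorem W_of_mem {s : ℕ} {x : List Bool} (h : x ∈ P.F s) : P.W x = true := by
  classical
  exact decide_eq_true (p := ∃ s, x ∈ P.F s) ⟨s, h⟩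

theorem add_W {s : ℕ} {x : List Bool} (h : P.Add s x) : P.W x = true := W_of_mem P h.1

theorem add_unique {s : ℕ} {x x' : List Bool} (h : P.Add s x) (h' : P.Add s x') : x = x' := by
  obtain ⟨-, -, h1, -⟩ := add_spec P h
  have h2 := h'.1
  rw [h1] at h2
  rcases Finset.mem_insert.1 h2 with h3 | h3
  · exact h3.symm
  · exact absurd h3 h'.2

/-- every pair is treated successfully at most once -/
theorem add_inj {s s' : ℕ} {x x' : List Bool} (h : P.Add s x) (h' : P.Add s' x')
    (hk : Par.ks s = Par.ks s') : s = s' := by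
  have key : ∀ {s s' : ℕ} {x x' : List Bool}, P.Add s x → P.Add s' x' → Par.ks s = Par.ks s' →
      ¬ s < s' := by
    intro s s' x x' h h' hk hlt
    obtain ⟨-, -, -, y, hy, -⟩ := add_spec P h
    obtain ⟨-, h2, -, -⟩ := add_spec P h'
    have h3 : x ∈ P.F s' := F_mono P (Nat.succ_le_of_lt hlt) h.1
    rw [hy, hk] at h3
    exact h2 y h3
  have h1 := key h h' hk
  have h2 := key h' h hk.symm
  omega

/-- late strings are long -/
theorem mem_F_of_short {s : ℕ} {x : List Bool} (h : P.W x = true)
    (hx : x.length + 1 < 2 ^ (st s + 1)) : x ∈ P.F s := by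
  obtain ⟨t, ht⟩ := exists_add P h
  obtain ⟨-, -, -, y, hy, hc, -⟩ := add_spec P ht
  have h1 : y.length ≤ x.length := by rw [hy, List.length_append]; omega
  have h2 : t < s := by
    by_contra hcon
    have h3 : 2 ^ (st s + 1) ≤ 2 ^ (st t + 1) :=
      Nat.pow_le_pow_right (by norm_num) (by
        have := st_mono.monotone (Nat.not_lt.1 hcon)
        omega)
    omega
  exact F_mono P (Nat.succ_le_of_lt h2) ht.1

theorem agree_W {s N : ℕ} (hN : N < 2 ^ (st s + 1)) :
    Agree N (P.OF (P.F s)) (join P.R P.W) := by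
  intro x hx
  match x with
  | [] => rfl
  | false :: x => rfl
  | true :: x =>
    show decide (x ∈ P.F s) = P.W x
    rw [List.length_cons] at hx
    rw [Bool.eq_iff_iff, decide_eq_true_eq]
    exact ⟨W_of_mem P, fun h => mem_F_of_short P h (by omega)⟩

theorem acc_W {s k J : ℕ} {S T : Th} (hk : S.2 = k) (hL : Large k J) (hJ : J ≤ s) :
    AccS (P.OF (P.F (s + 1))) S T s ↔ AccS (join P.R P.W) S T s := by
  subst hk
  refine acc_local (agree_W P ?_)
  have h1 := (hL (s + 1) (by omega)).1
  have h2 : 2 ^ st (s + 1) ≤ 2 ^ (st (s + 1) + 1) := Nat.pow_le_pow_right (by norm_num) (by omega)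
  omega

/-- a pair that is never treated successfully -/
theorem not_acc {m s J : ℕ} (hm : ∀ y, P.W (P.pf m ++ y) = false) (hs : Par.ks s = m)
    (hg : P.g m ≤ s) (hL : Large (P.cl m).1.2 J) (hJ : J ≤ s) :
    ¬ AccS (join P.R P.W) (P.cl m).1 (P.cl m).2 s := by
  classical
  intro hacc
  subst hs
  have hno : ¬ P.Go s (P.F s) := by
    intro hgo
    have h1 : P.pf (Par.ks s) ++ hgo.2.2.choose ∈ P.F (s + 1) := by
      rw [F_succ]
      unfold Par.step
      rw [dif_pos hgo]
      exact Finset.mem_insert_self _ _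
    have h2 := W_of_mem P h1
    rw [hm] at h2
    exact Bool.false_ne_true h2
  have hF : P.F (s + 1) = P.F s := by
    rw [F_succ]
    unfold Par.step
    rw [dif_neg hno]
  rw [← acc_W P rfl hL hJ, hF] at hacc
  obtain ⟨Q, hQ, hQ2⟩ := acc_touch hacc
  -- a string that is not asked
  have hcard : Q.card < 2 ^ (2 ^ (st s + 1) - 1) := by
    have h1 := (hL s hJ).2
    have h2 : tb (st (s + 1)) ^ ((P.cl (Par.ks s)).1.2 + 1) ≤
        tb (st (s + 1)) ^ ((P.cl (Par.ks s)).1.2 + 1) * 2 ^ (s + 2) :=
      Nat.le_mul_of_pos_right _ (by positivity)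
    have h3 : 2 ^ 2 ^ st s < 2 ^ (2 ^ (st s + 1) - 1) := by
      refine Nat.pow_lt_pow_right (by norm_num) ?_
      have h4 : 2 ^ (st s + 1) = 2 * 2 ^ st s := by ring
      have h5 : 2 ^ 1 ≤ 2 ^ st s := Nat.pow_le_pow_right (by norm_num) (by
        have := lt_st s
        omega)
      omega
    omega
  obtain ⟨y, hy, hyQ⟩ : ∃ y : List Bool, y.length = 2 ^ (st s + 1) - 1 ∧
      true :: (P.pf (Par.ks s) ++ y) ∉ Q := by
    by_contra hcon
    push Not at hcon
    have h1 : (Finset.univ : Finset (Fin (2 ^ (st s + 1) - 1) → Bool)).image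
        (fun f => true :: (P.pf (Par.ks s) ++ List.ofFn f)) ⊆ Q := by
      intro z hz
      obtain ⟨f, -, rfl⟩ := Finset.mem_image.1 hz
      exact hcon _ (List.length_ofFn)
    have h2 := Finset.card_le_card h1
    rw [Finset.card_image_of_injective, Finset.card_univ, Fintype.card_fun, Fintype.card_bool,
      Fintype.card_fin] at h2
    · omega
    · intro a b hab
      have h3 : P.pf (Par.ks s) ++ List.ofFn a = P.pf (Par.ks s) ++ List.ofFn b :=
        (List.cons.inj hab).2
      exact List.ofFn_injective (List.append_cancel_left h3)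
  refine hno ⟨hg, fun z hz => ?_, y, ?_, ?_⟩
  · have h2 := W_of_mem P hz
    rw [hm] at h2
    exact Bool.false_ne_true h2
  · have := Nat.one_le_two_pow (n := st s + 1)
    omega
  · refine hQ2 _ (fun x hx => ?_)
    match x with
    | [] => rfl
    | false :: x => rfl
    | true :: x =>
      show decide (x ∈ insert (P.pf (Par.ks s) ++ y) (P.F s)) = decide (x ∈ P.F s)
      rw [Bool.eq_iff_iff, decide_eq_true_eq, decide_eq_true_eq, Finset.mem_insert]
      constructor
      · rintro (h | h)
        · subst h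
          exact absurd hx hyQ
        · exact h
      · exact Or.inr

end Pool.Agent.FS
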