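import Pool.Agent.Lib_helper78.ADV.Dec
import Pool.Agent.Lib_helper78.FS.True

/-!
# The tally set
-/

set_option autoImplicit false

namespace Pool.Agent.FS

open Pool.Agent.CK Pool.Agent.RF Pool.Agent.CKP Pool.Agent.RO Pool.Agent.ADV

/-- the code of a family -/
def codeE (e : Fam) : D :=
  toD ((fmT e.2.2, (List.replicate e.1 (), List.replicate e.2.1 ())) : List Tk × List Unit × List Unit)

/-- the number of a family -/
def cod (e : Fam) : ℕ := ofBits ((codeE e).enc ++ [true])

/-- decoding -/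
def entD (d : D) : Ent := (toTks d.car, toU d.cdr.car, toU d.cdr.cdr, 0, 0)

/-- the entry with the given number -/
def entU (u : List Unit) : Ent := entD (dec u.length.bits.dropLast)

theorem entD_code (e : Fam) :
    entD (codeE e) = (fmT e.2.2, List.replicate e.1 (), List.replicate e.2.1 (), 0, 0) := by
  unfold entD codeE
  show (toTks (toD (fmT e.2.2)), toU (toD (List.replicate e.1 ())),
    toU (toD (List.replicate e.2.1 ())), 0, 0) = _
  rw [toTks_toD, dcp_toU_toD, dcp_toU_toD]

theorem entU_cod {u : List Unit} {e : Fam} (h : u.length = cod e) :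
    entU u = (fmT e.2.2, List.replicate e.1 (), List.replicate e.2.1 (), 0, 0) := by
  unfold entU
  rw [h]
  unfold cod
  rw [bits_ofBits_snoc, List.dropLast_concat, dec_enc, entD_code]

theorem cod_inj {e e' : Fam} (h : cod e = cod e') : e = e' := by
  have h1 := entU_cod (u := List.replicate (cod e) ()) (e := e) (List.length_replicate)
  have h2 := entU_cod (u := List.replicate (cod e) ()) (e := e')
    (by rw [List.length_replicate]; exact h)
  rw [h1] at h2
  have h3 : fmT e.2.2 = fmT e'.2.2 := congrArg (fun t : Ent => t.1) h2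
  have h4 : List.replicate e.1 () = List.replicate e'.1 () := congrArg (fun t : Ent => t.2.1) h2
  have h5 : List.replicate e.2.1 () = List.replicate e'.2.1 () :=
    congrArg (fun t : Ent => t.2.2.1) h2
  have h6 : e.1 = e'.1 := by simpa using congrArg List.length h4
  have h7 : e.2.1 = e'.2.1 := by simpa using congrArg List.length h5
  have h8 : e.2.2 = e'.2.2 := by
    have := congrArg encT h3
    rw [encT_fm, encT_fm] at this
    exact (enc_inj (a := []) (b := []) (by rw [List.append_nil, List.append_nil, this])).1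
  exact Prod.ext h6 (Prod.ext h7 h8)

/-- the family with number `u` is activated at level `l` -/
def Act (g : ℕ → ℕ) (u l : ℕ) : Prop := ∃ e : Fam, cod e = u ∧ e.Good ∧ l = g u

/-- the family with number `u` is first seen to be false at level `l` -/
def Dead (g : ℕ → ℕ) (O : Lang) (u l : ℕ) : Prop :=
  ∃ e : Fam, cod e = u ∧ e.Good ∧ g u ≤ l ∧ ¬ Alive O e l ∧ ∀ l', g u ≤ l' → l' < l → Alive O e l'

/-- the marks -/
def Mark (g : ℕ → ℕ) (O : Lang) (x : List Bool) : Prop :=
  ∃ l u b : ℕ, x = List.replicate (2 ^ (2 ^ l + 2 * u + b)) false ∧ 2 * u + 1 < 2 ^ l ∧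
    ((b = 0 ∧ Act g u l) ∨ (b = 1 ∧ Dead g O u l))

theorem alive_congr {O O' : Lang} {e : Fam} {l : ℕ} (he : e.Good)
    (h : ∀ y : List Bool, y.length ≤ 2 ^ 2 ^ l → O y = O' y) (h' : Alive O e l) : Alive O' e l := by
  intro n hn
  refine (he.2 n O O' (fun y hy => h y (hy.trans ?_))).1 (h' n hn)
  exact Nat.pow_le_pow_right (by norm_num) hn

theorem dead_congr {g : ℕ → ℕ} {O O' : Lang} {u l : ℕ}
    (h : ∀ y : List Bool, y.length ≤ 2 ^ 2 ^ l → O y = O' y) (h' : Dead g O u l) :
    Dead g O' u l := by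
  obtain ⟨e, h1, h2, h3, h4, h5⟩ := h'
  refine ⟨e, h1, h2, h3, fun h6 => h4 (alive_congr h2 (fun y hy => (h y hy).symm) h6), ?_⟩
  intro l' h6 h7
  refine alive_congr h2 (fun y hy => h y (hy.trans ?_)) (h5 l' h6 h7)
  exact Nat.pow_le_pow_right (by norm_num) (Nat.pow_le_pow_right (by norm_num) h7.le)

theorem mark_congr {g : ℕ → ℕ} {O O' : Lang} {x : List Bool}
    (h : ∀ y : List Bool, y.length ≤ x.length → O y = O' y) (hx : Mark g O x) : Mark g O' x := by
  obtain ⟨l, u, b, h1, h2, h3⟩ := hx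
  refine ⟨l, u, b, h1, h2, h3.imp id (fun h4 => ⟨h4.1, dead_congr (fun y hy => h y ?_) h4.2⟩)⟩
  rw [h1, List.length_replicate]
  exact hy.trans (Nat.pow_le_pow_right (by norm_num) (by omega))

open Classical in
/-- the operator -/
noncomputable def RT (g : ℕ → ℕ) (O : Lang) : Lang
  | true :: x => decide (Mark g O x)
  | _ => false

/-- the oracle `R ⊕ W` -/
noncomputable def OT (g : ℕ → ℕ) (R : Lang) : Lang := mkO (RT g) (fun x => R x.tail)

/-- the tally set -/
noncomputable def WT (g : ℕ → ℕ) (R : Lang) : Lang := fun x => OT g R (true :: x)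

theorem RT_local (g : ℕ → ℕ) : Local (RT g) := by
  intro x O O' h
  match x with
  | [] => rfl
  | false :: x => rfl
  | true :: x =>
    have h1 : ∀ y : List Bool, y.length ≤ x.length → O y = O' y := fun y hy =>
      h y (by rw [List.length_cons]; omega)
    have h2 : Mark g O x ↔ Mark g O' x :=
      ⟨mark_congr h1, mark_congr (fun y hy => (h1 y hy).symm)⟩
    simp only [RT]
    exact decide_eq_decide.2 h2

theorem OT_eq (g : ℕ → ℕ) (R : Lang) : OT g R = join R (WT g R) := by
  funext x
  match x with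
  | [] =>
    unfold OT
    rw [mkO_eq (RT_local g), if_neg (by simp)]
    rfl
  | false :: x =>
    unfold OT
    rw [mkO_eq (RT_local g), if_pos (by simp)]
    rfl
  | true :: x => rfl

theorem WT_iff (g : ℕ → ℕ) (R : Lang) (x : List Bool) :
    WT g R x = true ↔ Mark g (OT g R) x := by
  unfold WT
  have h : OT g R (true :: x) = RT g (OT g R) (true :: x) := by
    conv_lhs => unfold OT
    rw [mkO_eq (RT_local g), if_neg (by simp)]
    rfl
  rw [h]
  simp [RT]

theorem WT_tally {g : ℕ → ℕ} {R : Lang} {x : List Bool} (h : WT g R x = true) :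
    ∃ j, x = List.replicate (2 ^ j) false := by
  obtain ⟨l, u, b, h1, -⟩ := (WT_iff g R x).1 h
  exact ⟨_, h1⟩

/-- the exponents determine the levels and the numbers -/
theorem exp_inj {l u b l' u' b' : ℕ} (h : 2 ^ l + 2 * u + b = 2 ^ l' + 2 * u' + b')
    (h1 : 2 * u + 1 < 2 ^ l) (h2 : 2 * u' + 1 < 2 ^ l') (hb : b ≤ 1) (hb' : b' ≤ 1) :
    l = l' ∧ u = u' ∧ b = b' := by
  have key : ∀ {l l' u u' b b' : ℕ}, 2 ^ l + 2 * u + b = 2 ^ l' + 2 * u' + b' →
      2 * u + 1 < 2 ^ l → b ≤ 1 → l' ≤ l := by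
    intro l l' u u' b b' h h1 hb
    by_contra hcon
    have h3 : 2 ^ (l + 1) ≤ 2 ^ l' := Nat.pow_le_pow_right (by norm_num) (by omega)
    rw [pow_succ] at h3
    omega
  have h3 := key h h1 hb
  have h4 := key h.symm h2 hb'
  have h5 : l = l' := by omega
  subst h5
  omega

theorem mark_iff {g : ℕ → ℕ} {O : Lang} {l u b : ℕ} (hu : 2 * u + 1 < 2 ^ l) (hb : b ≤ 1) :
    Mark g O (List.replicate (2 ^ (2 ^ l + 2 * u + b)) false) ↔
      ((b = 0 ∧ Act g u l) ∨ (b = 1 ∧ Dead g O u l)) := by
  constructor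
  · rintro ⟨l', u', b', h1, h2, h3⟩
    have h4 := congrArg List.length h1
    rw [List.length_replicate, List.length_replicate] at h4
    have h5 := Nat.pow_right_injective (le_refl 2) h4
    have hb' : b' ≤ 1 := by rcases h3 with h | h <;> omega
    obtain ⟨h6, h7, h8⟩ := exp_inj h5 hu h2 hb hb'
    subst h6; subst h7; subst h8
    exact h3
  · intro h
    exact ⟨l, u, b, rfl, hu, h⟩

/-- the family is alive if and only if there is no mark -/
theorem dead_iff {g : ℕ → ℕ} {O : Lang} {e : Fam} (he : e.Good) {l : ℕ} (hg : g (cod e) ≤ l) :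
    (∃ l', l' ≤ l ∧ Dead g O (cod e) l') ↔ ¬ Alive O e l := by
  classical
  constructor
  · rintro ⟨l', h1, e', h2, -, -, h3, -⟩ h4
    have := cod_inj h2
    subst this
    exact h3 (alive_anti h1 h4)
  · intro h
    have hex : ∃ l', g (cod e) ≤ l' ∧ ¬ Alive O e l' := ⟨l, hg, h⟩
    refine ⟨Nat.find hex, Nat.find_min' hex ⟨hg, h⟩, e, rfl, he, (Nat.find_spec hex).1,
      (Nat.find_spec hex).2, fun l' h1 h2 => ?_⟩
    by_contra h3
    exact Nat.find_min hex h2 ⟨h1, h3⟩

theorem dead_unique {g : ℕ → ℕ} {O : Lang} {u l l' : ℕ} (h : Dead g O u l) (h' : Dead g O u l') :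
    l = l' := by
  obtain ⟨e, h1, -, h2, h3, h4⟩ := h
  obtain ⟨e', h1', -, h2', h3', h4'⟩ := h'
  have : e = e' := cod_inj (h1.trans h1'.symm)
  subst this
  rcases lt_trichotomy l l' with h5 | h5 | h5
  · exact absurd (h4' l h2 h5) h3
  · exact h5
  · exact absurd (h4 l' h2' h5) h3'

/-- the tally set has few elements -/
theorem few_WT {g α : ℕ → ℕ} (R : Lang)
    (hg : ∀ u n, 2 ^ 2 ^ g u ≤ n → 2 * u + 2 ≤ α n) : Few α (WT g R) := by
  classical
  intro n
  choose! l u b h1 h2 h3 using fun x (hx : WT g R x = true) => (WT_iff g R x).1 hx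
  have hgl : ∀ x, WT g R x = true → g (u x) ≤ l x := by
    intro x hx
    rcases h3 x hx with ⟨-, e, -, -, h⟩ | ⟨-, e, -, -, h, -⟩
    · exact h.ge
    · exact h
  have hb : ∀ x, WT g R x = true → b x ≤ 1 := by
    intro x hx
    rcases h3 x hx with h | h <;> omega
  have k1 : ∀ x ∈ {x : List Bool | x.length ≤ n ∧ WT g R x = true},
      2 * u x + b x ∈ ((Finset.range (α n) : Finset ℕ) : Set ℕ) := by
    rintro x ⟨hx, hW⟩
    rw [Finset.mem_coe, Finset.mem_range]
    have h4 : 2 ^ 2 ^ g (u x) ≤ x.length := by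
      have h5 : x.length = 2 ^ (2 ^ l x + 2 * u x + b x) := by
        have := congrArg List.length (h1 x hW)
        rwa [List.length_replicate] at this
      rw [h5]
      refine Nat.pow_le_pow_right (by norm_num) ?_
      have := Nat.pow_le_pow_right (n := 2) (by norm_num) (hgl x hW)
      omega
    have h5 := hg (u x) n (h4.trans hx)
    have h6 := hb x hW
    omega
  have k2 : Set.InjOn (fun x => 2 * u x + b x)
      {x : List Bool | x.length ≤ n ∧ WT g R x = true} := by
    rintro x ⟨-, hx⟩ x' ⟨-, hx'⟩ h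
    have h' : 2 * u x + b x = 2 * u x' + b x' := h
    have h4 := hb x hx
    have h5 := hb x' hx'
    have h6 : u x = u x' := by omega
    have h7 : b x = b x' := by omega
    have h8 : l x = l x' := by
      rcases h3 x hx with ⟨a1, e, -, -, a2⟩ | ⟨a1, a2⟩
      · rcases h3 x' hx' with ⟨-, e', -, -, a3⟩ | ⟨a3, -⟩
        · rw [a2, a3, h6]
        · omega
      · rcases h3 x' hx' with ⟨a3, -⟩ | ⟨-, a3⟩
        · omega
        · rw [h6] at a2
          exact dead_unique a2 a3
    rw [h1 x hx, h1 x' hx', h6, h7, h8]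
  have k3 := Set.ncard_le_ncard_of_injOn _ k1 k2 (Finset.finite_toSet _)
  rwa [Set.ncard_coe_finset, Finset.card_range] at k3

end Pool.Agent.FS
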