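import Pool.Agent.Lib_helper78.FS.Tal

/-!
# The test
-/

set_option autoImplicit false

namespace Pool.Agent.FS

open Pool.Agent.CK Pool.Agent.RF Pool.Agent.CKP Pool.Agent.RO Pool.Agent.ADV

variable {O : Lang} {γ : Type} [ToD γ]

/-- the set contains `0^m`, `m = 2 ^ (2 ^ |l| + 2 |u| + b)` -/
def hasM (O : Lang) (x : List Bool) (l u : List Unit) (b : ℕ) : Bool :=
  (rangeU (() :: umul (ulen x) (ulen x))).any (fun m =>
    O (true :: m.map (fun _ => false)) &&
      decide (m.length.bits.tail.length = (ushl l 1 + ushl [()] u.length) + b))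

/-- the test -/
def test (O : Lang) (x : List Bool) : Bool :=
  (rangeU (() :: ixL x)).any (fun l => (rangeU (ulen x)).any (fun u =>
    (decide (ushl [()] u.length + 2 ≤ ushl l 1) &&
      (hasM O x l u 0 && !((rangeU (() :: ixL x)).any (fun l' =>
        decide (ushl [()] u.length + 2 ≤ ushl l' 1) && hasM O x l' u 1)))) &&
    look4 x (entU u)))

theorem PTime_hasM {x : γ → List Bool} {l u : γ → List Unit} (b : ℕ) (hx : PTime O x)
    (hl : PTime O l) (hu : PTime O u) : PTime O (fun a => hasM O (x a) (l a) (u a) b) := by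
  unfold hasM
  refine PTime.any (f := fun a (m : List Unit) => O (true :: m.map (fun _ => false)) &&
      decide (m.length.bits.tail.length = (ushl (l a) 1 + ushl [()] (u a).length) + b))
    (PTime.rangeU (PTime.cons (PTime.const ()) (PTime.umul (PTime.ulen hx) (PTime.ulen hx)))) ?_
  have g1 : PTime O (fun p : γ × List Unit => p.2) := PTime.id.snd
  have g2 : PTime O (fun p : γ × List Unit => O (true :: p.2.map (fun _ => false))) :=
    PTime.ask (PTime.cons (PTime.const true) (PTime.map (f := fun _ _ => false) g1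
      (PTime.const _)))
  have g3 : PTime O (fun p : γ × List Unit => p.2.length.bits.tail.length) :=
    PTime.length (PTime.tail (PTime.bits (PTime.length g1)))
  have g4 : PTime O (fun p : γ × List Unit =>
      (ushl (l p.1) 1 + ushl [()] (u p.1).length) + b) :=
    ((PTime.ushl (hl.comp PTime.id.fst) (PTime.const 1)).nat_add
      (PTime.ushl (PTime.const [()]) (PTime.length (hu.comp PTime.id.fst)))).nat_add
      (PTime.const b)
  exact g2.and (g3.nat_eq g4)

theorem PTime_le2 {l u : γ → List Unit} (hl : PTime O l) (hu : PTime O u) :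
    PTime O (fun a => decide (ushl [()] (u a).length + 2 ≤ ushl (l a) 1)) :=
  ((PTime.ushl (PTime.const [()]) (PTime.length hu)).nat_add (PTime.const 2)).nat_le
    (PTime.ushl hl (PTime.const 1))

theorem PTime_entU {u : γ → List Unit} (hu : PTime O u) : PTime O (fun a => entU (u a)) := by
  have h : PTime O (fun a => dec (u a).length.bits.dropLast) :=
    PTime.dec (PTime.dropLast (PTime.bits (PTime.length hu)))
  unfold entU entD
  exact (PTime_toTks h.car).pair ((PTime_toU h.cdr.car).pair ((PTime_toU h.cdr.cdr).pair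
    ((PTime.const 0).pair (PTime.const 0))))

theorem PTime_test {x : γ → List Bool} (hx : PTime O x) : PTime O (fun a => test O (x a)) := by
  unfold test
  refine PTime.any (f := fun a (l : List Unit) => (rangeU (ulen (x a))).any (fun u =>
    (decide (ushl [()] u.length + 2 ≤ ushl l 1) &&
      (hasM O (x a) l u 0 && !((rangeU (() :: ixL (x a))).any (fun l' =>
        decide (ushl [()] u.length + 2 ≤ ushl l' 1) && hasM O (x a) l' u 1)))) &&
    look4 (x a) (entU u))) (PTime.rangeU (PTime.cons (PTime.const ()) (PTime_ixL hx))) ?_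
  have e1 : PTime O (fun p : γ × List Unit => x p.1) := hx.comp PTime.id.fst
  refine PTime.any (f := fun (p : γ × List Unit) (u : List Unit) =>
    (decide (ushl [()] u.length + 2 ≤ ushl p.2 1) &&
      (hasM O (x p.1) p.2 u 0 && !((rangeU (() :: ixL (x p.1))).any (fun l' =>
        decide (ushl [()] u.length + 2 ≤ ushl l' 1) && hasM O (x p.1) l' u 1)))) &&
    look4 (x p.1) (entU u)) (PTime.rangeU (PTime.ulen e1)) ?_
  have f1 : PTime O (fun p : (γ × List Unit) × List Unit => x p.1.1) :=
    hx.comp PTime.id.fst.fst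
  have f2 : PTime O (fun p : (γ × List Unit) × List Unit => p.1.2) := PTime.id.fst.snd
  have f3 : PTime O (fun p : (γ × List Unit) × List Unit => p.2) := PTime.id.snd
  refine ((PTime_le2 f2 f3).and ((PTime_hasM 0 f1 f2 f3).and (PTime.not ?_))).and
    (PTime_look4 f1 (PTime_entU f3))
  refine PTime.any (f := fun (p : (γ × List Unit) × List Unit) (l' : List Unit) =>
    decide (ushl [()] p.2.length + 2 ≤ ushl l' 1) && hasM O (x p.1.1) l' p.2 1)
    (PTime.rangeU (PTime.cons (PTime.const ()) (PTime_ixL f1))) ?_
  have h1 : PTime O (fun p : ((γ × List Unit) × List Unit) × List Unit => x p.1.1.1) :=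
    hx.comp PTime.id.fst.fst.fst
  have h2 : PTime O (fun p : ((γ × List Unit) × List Unit) × List Unit => p.2) := PTime.id.snd
  have h3 : PTime O (fun p : ((γ × List Unit) × List Unit) × List Unit => p.1.2) :=
    PTime.id.fst.snd
  exact (PTime_le2 h2 h3).and (PTime_hasM 1 h1 h2 h3)

/-! ## Meaning -/

theorem any_range (v : List Unit) (P : List Unit → Bool) :
    (rangeU v).any P = true ↔ ∃ i, i < v.length ∧ P (List.replicate i ()) = true := by
  have h : v = List.replicate v.length () := str_units v
  conv_lhs => rw [h]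
  exact gam_any_range _ _

theorem hasM_iff {g : ℕ → ℕ} {R : Lang} {x : List Bool} (hx : 2 ≤ x.length) {l u b : ℕ}
    (hl : l ≤ ix x.length) (hu : 2 * u + 1 < 2 ^ l) (hb : b ≤ 1) :
    hasM (OT g R) x (List.replicate l ()) (List.replicate u ()) b = true ↔
      ((b = 0 ∧ Act g u l) ∨ (b = 1 ∧ Dead g (OT g R) u l)) := by
  have hmap : ∀ i : ℕ, (List.replicate i ()).map (fun _ => false) = List.replicate i false := by
    intro i; rw [List.map_replicate]
  have hW : ∀ i : ℕ, OT g R (true :: (List.replicate i ()).map (fun _ => false)) = true ↔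
      Mark g (OT g R) (List.replicate i false) := by
    intro i
    rw [hmap]
    exact WT_iff g R _
  have e1 : ushl (List.replicate l ()) 1 + ushl [()] u + b = 2 ^ l + 2 * u + b := by
    rw [ushl_eq, ushl_eq, List.length_replicate, List.length_singleton]
    ring
  unfold hasM
  rw [any_range, ← mark_iff (g := g) (O := OT g R) hu hb]
  simp only [Bool.and_eq_true, hW, decide_eq_true_eq, List.length_replicate, bits_tail_log, e1]
  constructor
  · rintro ⟨m, -, h1, h2⟩
    obtain ⟨l', u', b', h3, h4, h5⟩ := h1
    have h6 := congrArg List.length h3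
    rw [List.length_replicate, List.length_replicate] at h6
    rw [h6, Nat.log_pow (by norm_num)] at h2
    rw [← h2]
    exact ⟨l', u', b', rfl, h4, h5⟩
  · intro h
    refine ⟨2 ^ (2 ^ l + 2 * u + b), ?_, h, Nat.log_pow (by norm_num) _⟩
    have h1 : (umul (ulen x) (ulen x)).length = x.length * x.length := by
      rw [ulen_eq, umul_replicate, List.length_replicate]
    rw [List.length_cons, h1]
    have h2 : 2 ^ 2 ^ l ≤ x.length :=
      (Nat.pow_le_pow_right (by norm_num) (Nat.pow_le_pow_right (by norm_num) hl)).trans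
        (lev_le hx)
    have h3 : 2 ^ (2 ^ l + 2 * u + b) ≤ 2 ^ 2 ^ l * 2 ^ 2 ^ l := by
      rw [← pow_add]
      exact Nat.pow_le_pow_right (by norm_num) (by omega)
    have h4 := Nat.mul_le_mul h2 h2
    omega

theorem look4_iff (x : List Bool) (e : Fam) :
    look4 x (fmT e.2.2, List.replicate e.1 (), List.replicate e.2.1 (), 0, 0) = true ↔
      ∃ m n, x = false :: (pad m (e.at n)).enc ∧ e.dep n ≤ 2 ^ ix x.length := by
  have h1 : look4 x (fmT e.2.2, List.replicate e.1 (), List.replicate e.2.1 (), 0, 0) =
      look4 x (fmT e.2.2, List.replicate e.1 (), List.replicate e.2.1 (), 0, ix x.length + 1) :=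
    rfl
  have h2 := lookB_iff x e 0 (ix x.length + 1)
  unfold lookB at h2
  rw [Bool.and_eq_true, Bool.and_eq_true] at h2
  rw [h1]
  constructor
  · intro h
    refine (h2.1 ⟨⟨?_, ?_⟩, h⟩).2
    · exact decide_eq_true (Nat.zero_le _)
    · exact decide_eq_true (by rw [ixL_len])
  · intro h
    exact (h2.2 ⟨⟨Nat.zero_le _, Nat.lt_succ_self _⟩, h⟩).2

theorem test_iff {g : ℕ → ℕ} {R : Lang} (hg : ∀ u, 2 * u + 1 < 2 ^ g u) (x : List Bool) :
    test (OT g R) x = true ↔ ∃ e : Fam, e.Good ∧ g (cod e) ≤ ix x.length ∧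
      Alive (OT g R) e (ix x.length) ∧ ∃ m n, x = false :: (pad m (e.at n)).enc ∧
        e.dep n ≤ 2 ^ ix x.length := by
  have hle : ∀ l u : ℕ, decide (ushl [()] (List.replicate u ()).length + 2 ≤
      ushl (List.replicate l ()) 1) = true ↔ 2 * u + 1 < 2 ^ l := by
    intro l u
    rw [decide_eq_true_eq, ushl_eq, ushl_eq, List.length_replicate, List.length_replicate,
      List.length_singleton]
    omega
  have hixl : (() :: ixL x).length = ix x.length + 1 := by rw [List.length_cons, ixL_len]
  unfold test
  rw [any_range, hixl]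
  constructor
  · rintro ⟨l, hl, h⟩
    rw [any_range] at h
    obtain ⟨u, hu, h⟩ := h
    rw [Bool.and_eq_true, Bool.and_eq_true, Bool.and_eq_true, hle, Bool.not_eq_true'] at h
    obtain ⟨⟨h1, h2, h3⟩, h4⟩ := h
    have hx2 : 2 ≤ x.length := by
      by_contra hcon
      have h5 : look4 x (entU (List.replicate u ())) = true := h4
      unfold look4 at h5
      rw [any_range, ulen_eq, List.length_replicate] at h5
      obtain ⟨i, hi, h6⟩ := h5
      unfold look5 at h6
      rw [Bool.and_eq_true, decide_eq_true_eq, ushl_eq, ixL_len] at h6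
      have h7 := h6.1
      have h8 : ix x.length = 0 := by
        unfold ix
        interval_cases x.length <;> simp
      rw [h8] at h7
      rw [h8] at hl
      interval_cases l
      omega
    rw [hasM_iff hx2 (by omega) h1 (by norm_num)] at h2
    have h5 : Act g u l := by
      rcases h2 with h | h
      · exact h.2
      · omega
    obtain ⟨e, he1, he2, he3⟩ := h5
    subst he1
    have h6 : entU (List.replicate (cod e) ()) =
        (fmT e.2.2, List.replicate e.1 (), List.replicate e.2.1 (), 0, 0) :=
      entU_cod (List.length_replicate)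
    rw [h6, look4_iff] at h4
    refine ⟨e, he2, by omega, ?_, h4⟩
    by_contra hcon
    obtain ⟨l', h7, h8⟩ := (dead_iff (g := g) he2 (by omega)).2 hcon
    have h9 : ((rangeU (() :: ixL x)).any (fun l' =>
        decide (ushl [()] (List.replicate (cod e) ()).length + 2 ≤ ushl l' 1) &&
          hasM (OT g R) x l' (List.replicate (cod e) ()) 1)) = true := by
      rw [any_range, hixl]
      have h10 : 2 * cod e + 1 < 2 ^ l' := by
        obtain ⟨-, -, -, h11, -⟩ := h8
        exact (hg (cod e)).trans_le (Nat.pow_le_pow_right (by norm_num) h11)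
      refine ⟨l', by omega, ?_⟩
      rw [Bool.and_eq_true, hle, hasM_iff hx2 h7 h10 (by norm_num)]
      exact ⟨h10, Or.inr ⟨rfl, h8⟩⟩
    rw [h9] at h3
    exact Bool.false_ne_true h3.symm
  · rintro ⟨e, he, h1, h2, h3⟩
    have hx2 : 2 ≤ x.length := by
      obtain ⟨m, n, h4, -⟩ := h3
      exact code_len h4
    refine ⟨g (cod e), by omega, ?_⟩
    rw [any_range, ulen_eq, List.length_replicate]
    have h4 : cod e < x.length := by
      have h5 := hg (cod e)
      have h6 : 2 ^ g (cod e) ≤ 2 ^ ix x.length := Nat.pow_le_pow_right (by norm_num) h1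
      have h7 : 2 ^ ix x.length < 2 ^ 2 ^ ix x.length := Nat.lt_two_pow_self
      have h8 := lev_le hx2
      omega
    refine ⟨cod e, h4, ?_⟩
    rw [Bool.and_eq_true, Bool.and_eq_true, Bool.and_eq_true, hle, Bool.not_eq_true',
      hasM_iff hx2 h1 (hg _) (by norm_num), entU_cod (List.length_replicate), look4_iff]
    refine ⟨⟨hg _, Or.inl ⟨rfl, e, rfl, he, rfl⟩, ?_⟩, h3⟩
    by_contra hcon
    rw [Bool.not_eq_false, any_range, hixl] at hcon
    obtain ⟨l', h5, h6⟩ := hcon
    rw [Bool.and_eq_true, hle] at h6
    rw [hasM_iff hx2 (by omega) h6.1 (by norm_num)] at h6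
    rcases h6.2 with h7 | h7
    · omega
    · exact (dead_iff (g := g) he h1).1 ⟨l', by omega, h7.2⟩ h2

end Pool.Agent.FS
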