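import Pool.Agent.Lib_helper78.RF.F.FNA
import Pool.Agent.Lib_helper78.RF.F.FNB
import Pool.Agent.Lib_helper78.RO.Defs
import Pool.Agent.Lib_helper78.RO.F.STR
import Pool.Agent.Lib_helper78.RO.F.THA
import Pool.Agent.Lib_helper78.RO.F.THB
import Pool.Agent.Lib_helper78.RO.F.RFT
import Pool.Agent.Lib_helper78.RO.F.RFP

/-!
# The sentences: no string `1 p y`, `|y| = 2 ^ (l + 1) - 1`, is in the oracle
-/

set_option autoImplicit false

namespace Pool.Agent.FS

open Pool.Agent.CK Pool.Agent.RF Pool.Agent.CKP Pool.Agent.RO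

variable {O : Lang} {γ : Type} [ToD γ]

/-- no string `1 p y` with `|y| = 2 ^ (l + 1) - 1` is in the oracle -/
def t1F (l : ℕ) (p : List Bool) : Fm :=
  .all 5 (.imp (.le (num (val (List.replicate (2 ^ (l + 1) - 1) false))) (.var 5))
    (.imp (.le (.var 5) (num (val (List.replicate (2 ^ (l + 1) - 1) true)))) (chF [p])))

/-- the tokens of the sentence -/
def t1T (l : List Unit) (p : List Bool) : List Tk :=
  allK (List.replicate 5 ()) (impK (leK (numT ((upTo l).map (fun _ => false))) [tk 0 5])
    (impK (leK [tk 0 5] (numT ((upTo l).map (fun _ => true)))) (chT [p])))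

theorem t1T_eq {l : ℕ} {p : List Bool} : t1T (List.replicate l ()) p = fmT (t1F l p) := by
  unfold t1T t1F
  have h : ∀ b : Bool, (upTo (List.replicate l ())).map (fun _ => b) =
      List.replicate (2 ^ (l + 1) - 1) b := by
    intro b
    rw [rft_map, upTo_length, List.length_replicate]
  rw [h, h, numT_eq, numT_eq, rft_chT]
  rfl

theorem PTime_t1T {s : γ → List Bool} {l : γ → List Unit} {p : γ → List Bool} (hs : PTime O s)
    (hl : PTime O l) (hp : PTime O p) : PTime O (fun x => t1T (cut (s x) (l x)) (p x)) := by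
  obtain ⟨P, hP⟩ := hs.size_le
  have hU : PTime O (fun x => upTo (cut (s x) (l x))) := by
    refine PTime_upTo (PTime_cut hs hl) (P + 1) (fun x => ?_)
    have h1 := cut_pow (s x) (l x)
    have h2 := length_le_sz (s x)
    have h3 := hP x
    rw [Polynomial.eval_add, Polynomial.eval_one]
    omega
  unfold t1T
  exact PTime_allK (PTime.const _) (PTime_impK (PTime_leK (PTime_numT
    (PTime.map (f := fun _ _ => false) hU (PTime.const _))) (PTime.const _))
    (PTime_impK (PTime_leK (PTime.const _) (PTime_numT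
      (PTime.map (f := fun _ _ => true) hU (PTime.const _))))
      (rfp_chT (W := fun x => [p x]) (PTime.cons hp (PTime.const _)))))

theorem t1F_closed (l : ℕ) (p : List Bool) : (t1F l p).Closed := by
  intro i h
  simp only [t1F, Fm.free, Tm.has, num_has, false_or, or_false] at h
  obtain ⟨h1, h2⟩ := h
  rcases h2 with h2 | h2 | h2
  · exact h1 h2
  · exact h1 h2
  · exact h1 (tha_free h2)

theorem tw_len_ge (w : List Bool) (t : Tm) : w.length ≤ (twF w t).enc.length := by
  induction w with
  | nil => exact Nat.zero_le _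
  | cons b w ih =>
    cases b with
    | true =>
      simp only [twF, Tm.enc, List.length_append, VAL_tag_len, List.length_cons]
      omega
    | false =>
      simp only [twF, Tm.enc, List.length_append, VAL_tag_len, List.length_cons]
      omega

theorem num_len_ge (y : List Bool) : y.length ≤ (num (val y)).enc.length := by
  have h := twF_num y []
  rw [List.append_nil] at h
  rw [← h]
  exact tw_len_ge y _

theorem t1F_enc_len (l : ℕ) (p : List Bool) : (t1F l p).enc.length = 46 +
    (num (val (List.replicate (2 ^ (l + 1) - 1) false))).enc.length +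
    (num (val (List.replicate (2 ^ (l + 1) - 1) true))).enc.length +
    (chF [p]).enc.length := by
  simp only [t1F, Fm.enc, Tm.enc, List.length_append, VAL_tag_len]
  omega

theorem t1F_len_ge (l : ℕ) (p : List Bool) : 2 ^ l ≤ (t1F l p).enc.length := by
  have h := num_len_ge (List.replicate (2 ^ (l + 1) - 1) false)
  rw [List.length_replicate] at h
  have hp : 2 ^ (l + 1) = 2 * 2 ^ l := by ring
  have h1 := Nat.one_le_two_pow (n := l)
  rw [t1F_enc_len]
  omega

theorem t1F_len_le {l : ℕ} {p : List Bool} (hp : p.length ≤ l) :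
    (t1F l p).enc.length ≤ 200 * 2 ^ l + 200 := by
  have h1 := (tha_ch_len (l := l) [p] (by simpa using hp)).2
  have h3 := tha_num_len (List.replicate (2 ^ (l + 1) - 1) false)
  have h4 := tha_num_len (List.replicate (2 ^ (l + 1) - 1) true)
  rw [List.length_replicate] at h3 h4
  rw [List.length_singleton] at h1
  have hl : l < 2 ^ l := Nat.lt_two_pow_self
  have hq : 2 ^ (l + 1) = 2 * 2 ^ l := by ring
  rw [t1F_enc_len]
  omega

theorem t1F_true {l : ℕ} {p : List Bool}
    (h : ∀ y : List Bool, y.length + 1 = 2 ^ (l + 1) → ¬ O (true :: (p ++ y)) = true) :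
    (t1F l p).True O := by
  intro v a h1 h2
  obtain ⟨y, rfl⟩ := val_surj a
  simp only [Fm.Holds, Tm.ev, ev_num, Function.update_self] at h1 h2
  have h3 := tha_len h1 h2
  have h0 := Nat.one_le_two_pow (n := l + 1)
  have h4 := h y (by omega)
  apply tha_ch
  refine ⟨p, List.mem_singleton_self p, ?_⟩
  rintro ⟨x, hx, hx2⟩
  rw [tha_ev (true :: p) y (Tm.var 5) _ (by simp [Tm.ev])] at hx
  have := val_inj hx
  rw [this] at hx2
  exact h4 hx2

/-- a false sentence is refuted shortly from the diagram -/
theorem t1F_refute {A : Fm → Prop} {l : ℕ} {p y : List Bool} (hA : A (t1F l p))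
    (hle : ∀ a b : ℕ, a ≤ b → A (.le (num a) (num b)))
    (horc : ∀ x : List Bool, O x = true → A (.orc (num (val x)))) (hp : p.length ≤ l)
    (hy : y.length + 1 = 2 ^ (l + 1)) (hb : O (true :: (p ++ y)) = true) :
    ∃ l', IsProof A (l' ++ [falsum]) ∧ (pEnc (l' ++ [falsum])).length ≤ 2000 * 2 ^ l + 2000 := by
  have hn : y.length = 2 ^ (l + 1) - 1 := by omega
  obtain ⟨v1, v2⟩ := len_val hn
  set a := num (val (List.replicate (2 ^ (l + 1) - 1) false)) with ha
  set b := num (val (List.replicate (2 ^ (l + 1) - 1) true)) with hb'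
  set t := num (val y) with ht
  set body : Fm := .imp (.le a (.var 5)) (.imp (.le (.var 5) b) (chF [p])) with hbody
  have hthF : t1F l p = .all 5 body := rfl
  have hsb : body.sb 5 t = .imp (.le a t) (.imp (.le t b) (thb_ch y [p])) := by
    have s1 : a.sb 5 t = a := SUB_tm_sb (num_has _ _)
    have s2 : b.sb 5 t = b := SUB_tm_sb (num_has _ _)
    have s3 : (Tm.var 5).sb 5 t = t := by simp [Tm.sb]
    show Fm.imp (.le (a.sb 5 t) ((Tm.var 5).sb 5 t))
      (.imp (.le ((Tm.var 5).sb 5 t) (b.sb 5 t)) ((chF [p]).sb 5 t)) = _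
    rw [s1, s2, s3, ht, thb_ch_sb]
  have hok : body.Ok 5 t := ⟨trivial, trivial, thb_ch_ok t [p]⟩
  have p1 : IsProof A ([] ++ [Fm.all 5 body]) :=
    prv_snoc (prv_nil A) (Or.inr (Or.inl (hthF ▸ hA)))
  have p2 : IsProof A (([] ++ [Fm.all 5 body]) ++ [Fm.imp (Fm.all 5 body) (body.sb 5 t)]) :=
    prv_snoc p1 (Or.inl (Logical.inst 5 body t hok))
  rw [hsb] at p2
  have p3 := prv_snoc (φ := .imp (.le a t) (.imp (.le t b) (thb_ch y [p]))) p2
    (Or.inr (Or.inr ⟨Fm.all 5 body, by simp, by simp⟩))
  have p4 := prv_snoc (φ := .le a t) p3 (Or.inr (Or.inl (hle _ _ v1)))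
  have p5 := prv_snoc (φ := .imp (.le t b) (thb_ch y [p])) p4
    (Or.inr (Or.inr ⟨Fm.le a t, by simp, by simp⟩))
  have p6 := prv_snoc (φ := .le t b) p5 (Or.inr (Or.inl (hle _ _ v2)))
  have p7 := prv_snoc (φ := thb_ch y [p]) p6
    (Or.inr (Or.inr ⟨Fm.le t b, by simp, by simp⟩))
  obtain ⟨l', h1, h2⟩ := thb_chain horc [p] (fun w hw => by
    rw [List.mem_singleton] at hw
    rw [hw]; exact hb) le_rfl _ p7
  refine ⟨l', h1, h2.trans ?_⟩
  -- lengths
  have c1 := t1F_len_le hp
  rw [hthF] at c1
  have c2 := thb_ch_len (l := l) y [p] (by simpa using hp)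
  rw [List.length_singleton] at c2 ⊢
  have c4 := tha_num_len (List.replicate (2 ^ (l + 1) - 1) false)
  have c5 := tha_num_len (List.replicate (2 ^ (l + 1) - 1) true)
  have c6 := tha_num_len y
  rw [List.length_replicate, ← ha] at c4
  rw [List.length_replicate, ← hb'] at c5
  rw [← ht] at c6
  have d1 : (Fm.imp (Fm.all 5 body) (.imp (.le a t) (.imp (.le t b) (thb_ch y [p])))).enc.length =
      7 + (Fm.all 5 body).enc.length +
        (Fm.imp (.le a t) (.imp (.le t b) (thb_ch y [p]))).enc.length := by
    simp only [Fm.enc, List.length_append, VAL_tag_len]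
    omega
  have d2 : (Fm.imp (.le a t) (.imp (.le t b) (thb_ch y [p]))).enc.length =
      9 + a.enc.length + t.enc.length + (Fm.imp (.le t b) (thb_ch y [p])).enc.length := by
    simp only [Fm.enc, List.length_append, VAL_tag_len]
    omega
  have d3 : (Fm.imp (.le t b) (thb_ch y [p])).enc.length =
      9 + t.enc.length + b.enc.length + (thb_ch y [p]).enc.length := by
    simp only [Fm.enc, List.length_append, VAL_tag_len]
    omega
  have d4 : (Fm.le a t).enc.length = 2 + a.enc.length + t.enc.length := by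
    simp only [Fm.enc, List.length_append, VAL_tag_len]
    omega
  have d5 : (Fm.le t b).enc.length = 2 + t.enc.length + b.enc.length := by
    simp only [Fm.enc, List.length_append, VAL_tag_len]
    omega
  have d0 : (pEnc ([] ++ [Fm.all 5 body])).length = (Fm.all 5 body).enc.length := by
    rw [thb_penc]
    simp [pEnc]
  rw [thb_penc, thb_penc, thb_penc, thb_penc, thb_penc, thb_penc, d0]
  have hl : l < 2 ^ l := Nat.lt_two_pow_self
  have hq : 2 ^ (l + 1) = 2 * 2 ^ l := by ring
  have h0 := Nat.one_le_two_pow (n := l)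
  omega

end Pool.Agent.FS
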